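import Pool.Agent.Helper43_HAM.Stmts

set_option autoImplicit false

namespace Pool.Agent.HAM.H27

open Pool.Agent.HAM

/-! ### INH: cube insertion doubles the number of Hamiltonian cycles -/

open Classical in
theorem ncard3 {W : Type} (K : SimpleGraph W) (v : W) (g : Fin 3 → W)
    (hg : Function.Injective g) (h : ∀ w, K.Adj v w → ∃ i, w = g i) :
    (K.neighborSet v).ncard = (decide (K.Adj v (g 0))).toNat + (decide (K.Adj v (g 1))).toNat +
      (decide (K.Adj v (g 2))).toNat := by
  have h1 : K.neighborSet v = g '' {i | K.Adj v (g i)} := by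
    ext w
    simp only [SimpleGraph.mem_neighborSet, Set.mem_image, Set.mem_ofPred_eq]
    constructor
    · intro hw
      obtain ⟨i, rfl⟩ := h w hw
      exact ⟨i, hw, rfl⟩
    · rintro ⟨i, hi, rfl⟩
      exact hi
  have h2 : ∑ i : Fin 3, (decide (K.Adj v (g i))).toNat =
      (decide (K.Adj v (g 0))).toNat + (decide (K.Adj v (g 1))).toNat +
      (decide (K.Adj v (g 2))).toNat := Fin.sum_univ_three _
  rw [← h2, h1, Set.ncard_image_of_injective _ hg, Set.ncard_eq_toFinset_card',
    Set.toFinset_ofPred, Finset.card_filter]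
  refine Finset.sum_congr rfl (fun i _ => ?_)
  by_cases hi : K.Adj v (g i) <;> simp [hi]

/-- which of the edges `x - A_i` are used -/
def XA (t : Fin 3 → Bool) (b : Bool) (i : Fin 3) : Bool :=
  !(t i) || (!b && !(t (i + 1))) || (b && !(t (i + 2)))

/-- which of the edges `A_i - B_j` are used -/
def AB (t : Fin 3 → Bool) (b : Bool) (i j : Fin 3) : Bool :=
  decide (i ≠ j) && (!(t j) || (!b && decide (j = i + 1)) || (b && decide (j = i + 2)))

section inh

variable {V : Type}

/-- the lift of `H` -/
def upg (H : SimpleGraph V) (x : V) (n : Fin 3 → V) (t : Fin 3 → Bool) (b : Bool) :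
    SimpleGraph (V ⊕ Fin 3 × Bool) where
  Adj
    | .inl u, .inl v => H.Adj u v ∧ u ≠ x ∧ v ≠ x
    | .inl u, .inr (i, true) => u = n i ∧ t i = true
    | .inl u, .inr (i, false) => u = x ∧ XA t b i = true
    | .inr (i, true), .inl u => u = n i ∧ t i = true
    | .inr (i, false), .inl u => u = x ∧ XA t b i = true
    | .inr (i, false), .inr (j, true) => AB t b i j = true
    | .inr (j, true), .inr (i, false) => AB t b i j = true
    | .inr (_, true), .inr (_, true) => False
    | .inr (_, false), .inr (_, false) => False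
  symm := ⟨by
    rintro (u | ⟨i, (_ | _)⟩) (v | ⟨j, (_ | _)⟩) h
    · exact ⟨h.1.symm, h.2.2, h.2.1⟩
    · exact h
    · exact h
    · exact h
    · exact h
    · exact h
    · exact h
    · exact h
    · exact h⟩
  loopless := ⟨by
    rintro (u | ⟨i, (_ | _)⟩) h
    · exact h.1.ne rfl
    · exact h
    · exact h⟩

/-- the contraction -/
def low (K : SimpleGraph (V ⊕ Fin 3 × Bool)) (x : V) (n : Fin 3 → V) : SimpleGraph V where
  Adj u v := u ≠ v ∧ (K.Adj (.inl u) (.inl v) ∨
    (∃ i, u = x ∧ v = n i ∧ K.Adj (.inr (i, true)) (.inl (n i))) ∨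
    (∃ i, v = x ∧ u = n i ∧ K.Adj (.inr (i, true)) (.inl (n i))))
  symm := ⟨by
    rintro u v ⟨h, h1 | h1 | h1⟩
    · exact ⟨h.symm, Or.inl h1.symm⟩
    · exact ⟨h.symm, Or.inr (Or.inr h1)⟩
    · exact ⟨h.symm, Or.inr (Or.inl h1)⟩⟩
  loopless := ⟨fun _ h => h.1 rfl⟩

/-- the contraction on vertices -/
def qq (x : V) : V ⊕ Fin 3 × Bool → V := Sum.elim id (fun _ => x)

theorem reach_map {W U : Type} (K : SimpleGraph W) (H : SimpleGraph U) (q : W → U)
    (h : ∀ a b, K.Adj a b → H.Reachable (q a) (q b)) {a b : W} (hab : K.Reachable a b) :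
    H.Reachable (q a) (q b) := by
  obtain ⟨w⟩ := hab
  induction w with
  | nil => exact SimpleGraph.Reachable.refl _
  | cons hadj _ ih => exact (h _ _ hadj).trans ih

theorem path6 (K : SimpleGraph (V ⊕ Fin 3 × Bool)) (x : V) (i j k : Fin 3)
    (hijk : ∀ l, l = i ∨ l = j ∨ l = k) (e1 : K.Adj (.inl x) (.inr (i, false)))
    (e2 : K.Adj (.inr (i, false)) (.inr (j, true))) (e3 : K.Adj (.inl x) (.inr (k, false)))
    (e4 : K.Adj (.inr (k, false)) (.inr (i, true))) (e5 : K.Adj (.inr (j, false)) (.inr (i, true)))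
    (e6 : K.Adj (.inr (j, false)) (.inr (k, true))) (v : Fin 3 × Bool) :
    K.Reachable (.inl x) (.inr v) := by
  have r1 : K.Reachable (.inl x) (.inr (i, false)) := e1.reachable
  have r2 : K.Reachable (.inl x) (.inr (j, true)) := r1.trans e2.reachable
  have r3 : K.Reachable (.inl x) (.inr (k, false)) := e3.reachable
  have r4 : K.Reachable (.inl x) (.inr (i, true)) := r3.trans e4.reachable
  have r5 : K.Reachable (.inl x) (.inr (j, false)) := r4.trans e5.symm.reachable
  have r6 : K.Reachable (.inl x) (.inr (k, true)) := r5.trans e6.reachable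
  obtain ⟨l, b⟩ := v
  rcases hijk l with rfl | rfl | rfl <;> cases b <;> assumption

theorem up_inner (H : SimpleGraph V) (x : V) (n : Fin 3 → V) (t : Fin 3 → Bool) (b : Bool)
    (m : Fin 3) (h0 : t m = false) (h1 : t (m + 1) = true) (h2 : t (m + 2) = true)
    (v : Fin 3 × Bool) : (upg H x n t b).Reachable (.inl x) (.inr v) := by
  cases b
  · refine path6 _ x m (m + 1) (m + 2) (by clear h0 h1 h2; revert m; decide) ?_ ?_ ?_ ?_ ?_ ?_ v
    · exact ⟨rfl, by fin_cases m <;> simp_all [XA]⟩
    · show AB t false m (m + 1) = true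
      fin_cases m <;> simp_all [AB]
    · exact ⟨rfl, by fin_cases m <;> simp_all [XA]⟩
    · show AB t false (m + 2) m = true
      fin_cases m <;> simp_all [AB]
    · show AB t false (m + 1) m = true
      fin_cases m <;> simp_all [AB]
    · show AB t false (m + 1) (m + 2) = true
      fin_cases m <;> simp_all [AB]
  · refine path6 _ x m (m + 2) (m + 1) (by clear h0 h1 h2; revert m; decide) ?_ ?_ ?_ ?_ ?_ ?_ v
    · exact ⟨rfl, by fin_cases m <;> simp_all [XA]⟩
    · show AB t true m (m + 2) = true
      fin_cases m <;> simp_all [AB]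
    · exact ⟨rfl, by fin_cases m <;> simp_all [XA]⟩
    · show AB t true (m + 1) m = true
      fin_cases m <;> simp_all [AB]
    · show AB t true (m + 2) m = true
      fin_cases m <;> simp_all [AB]
    · show AB t true (m + 2) (m + 1) = true
      fin_cases m <;> simp_all [AB]

theorem ncard_out (K : SimpleGraph (V ⊕ Fin 3 × Bool)) (H : SimpleGraph V) (x : V)
    (n : Fin 3 → V) (hn : Function.Injective n) (u : V)
    (h1 : ∀ v, K.Adj (.inl u) (.inl v) ↔ H.Adj u v ∧ v ≠ x)
    (h2 : ∀ i, K.Adj (.inl u) (.inr (i, true)) ↔ u = n i ∧ H.Adj u x)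
    (h3 : ∀ i, ¬ K.Adj (.inl u) (.inr (i, false)))
    (h4 : H.Adj u x → ∃ i, u = n i) :
    (K.neighborSet (.inl u)).ncard = (H.neighborSet u).ncard := by
  have e : H.neighborSet u = qq x '' K.neighborSet (.inl u) := by
    ext v
    simp only [SimpleGraph.mem_neighborSet, Set.mem_image]
    constructor
    · intro hv
      by_cases hvx : v = x
      · subst hvx
        obtain ⟨i, hi⟩ := h4 hv
        exact ⟨.inr (i, true), (h2 i).mpr ⟨hi, hv⟩, rfl⟩
      · exact ⟨.inl v, (h1 v).mpr ⟨hv, hvx⟩, rfl⟩
    · rintro ⟨w | ⟨i, b⟩, hw, rfl⟩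
      · exact ((h1 w).mp hw).1
      · cases b
        · exact absurd hw (h3 i)
        · exact ((h2 i).mp hw).2
  rw [e]
  symm
  apply Set.InjOn.ncard_image
  rintro (v | ⟨i, b⟩) hv (w | ⟨j, c⟩) hw hvw
  · have : v = w := hvw
    rw [this]
  · exfalso
    have hv' := ((h1 v).mp hv).2
    exact hv' hvw
  · exfalso
    have hw' := ((h1 w).mp hw).2
    exact hw' hvw.symm
  · cases b
    · exact absurd hv (h3 i)
    · cases c
      · exact absurd hw (h3 j)
      · have e1 := ((h2 i).mp hv).1
        have e2 := ((h2 j).mp hw).1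
        rw [hn (e1.symm.trans e2)]

theorem one_missing (t : Fin 3 → Bool) (h : (t 0).toNat + (t 1).toNat + (t 2).toNat = 2) :
    ∃ m, t m = false ∧ t (m + 1) = true ∧ t (m + 2) = true := by
  revert t; decide

/-- the neighbours of `A_i` resp. `B_i` -/
def nbr (y : V) (i : Fin 3) (b : Bool) : Fin 3 → V ⊕ Fin 3 × Bool :=
  ![.inl y, .inr (i + 1, b), .inr (i + 2, b)]

theorem nbr_inj (y : V) (i : Fin 3) (b : Bool) : Function.Injective (nbr y i b) := by
  intro j k h
  have h12 : i + 1 ≠ i + 2 := by clear h; revert i; decide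
  fin_cases j <;> fin_cases k <;> simp_all [nbr]

theorem sumXA (t : Fin 3 → Bool) (b : Bool) (h : (t 0).toNat + (t 1).toNat + (t 2).toNat = 2) :
    (XA t b 0).toNat + (XA t b 1).toNat + (XA t b 2).toNat = 2 := by
  revert t b; decide

theorem sumA (t : Fin 3 → Bool) (b : Bool) (h : (t 0).toNat + (t 1).toNat + (t 2).toNat = 2)
    (i : Fin 3) : (XA t b i).toNat + (AB t b i (i + 1)).toNat + (AB t b i (i + 2)).toNat = 2 := by
  revert t b i; decide

theorem sumB (t : Fin 3 → Bool) (b : Bool) (h : (t 0).toNat + (t 1).toNat + (t 2).toNat = 2)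
    (i : Fin 3) : (t i).toNat + (AB t b (i + 1) i).toNat + (AB t b (i + 2) i).toNat = 2 := by
  revert t b i; decide

theorem AB_ne (t : Fin 3 → Bool) (b : Bool) (i j : Fin 3) (h : AB t b i j = true) : i ≠ j := by
  simp only [AB, Bool.and_eq_true, decide_eq_true_eq] at h
  exact h.1

theorem fin3 (i j : Fin 3) (h : i ≠ j) : i = j + 1 ∨ i = j + 2 := by
  revert i j; decide

theorem sum_t {G H : SimpleGraph V} {x : V} {n : Fin 3 → V} (hn : Function.Injective n)
    (hx : G.neighborSet x = Set.range n) (hH : H ≤ G) (t : Fin 3 → Bool)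
    (ht : ∀ i, t i = true ↔ H.Adj x (n i)) (hd : (H.neighborSet x).ncard = 2) :
    (t 0).toNat + (t 1).toNat + (t 2).toNat = 2 := by
  classical
  rw [ncard3 H x n hn (by
    intro w hw
    have : w ∈ G.neighborSet x := hH hw
    rw [hx] at this
    obtain ⟨i, rfl⟩ := this
    exact ⟨i, rfl⟩)] at hd
  have e : ∀ i, t i = decide (H.Adj x (n i)) := by
    intro i
    rw [Bool.eq_iff_iff, decide_eq_true_iff]
    exact ht i
  rw [e 0, e 1, e 2]
  convert hd

theorem up_mem {G H : SimpleGraph V} {x : V} {n : Fin 3 → V} (hn : Function.Injective n)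
    (hx : G.neighborSet x = Set.range n) (hH : H ≤ G) (hc : H.Connected)
    (hd : ∀ v, (H.neighborSet v).ncard = 2) (t : Fin 3 → Bool)
    (ht : ∀ i, t i = true ↔ H.Adj x (n i)) (b : Bool) :
    upg H x n t b ≤ ins G x n ∧ (upg H x n t b).Connected ∧
      ∀ v, ((upg H x n t b).neighborSet v).ncard = 2 := by
  classical
  have hs := sum_t hn hx hH t ht (hd x)
  have hxn : ∀ v, H.Adj x v → ∃ i, v = n i := by
    intro v hv
    have : v ∈ G.neighborSet x := hH hv
    rw [hx] at this
    obtain ⟨i, rfl⟩ := this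
    exact ⟨i, rfl⟩
  refine ⟨?_, ?_, ?_⟩
  · rintro (u | ⟨i, (_ | _)⟩) (v | ⟨j, (_ | _)⟩) h
    · exact ⟨hH h.1, h.2⟩
    · exact Or.inl ⟨rfl, h.1⟩
    · exact Or.inr ⟨rfl, h.1⟩
    · exact Or.inl ⟨rfl, h.1⟩
    · exact absurd h (fun h => h)
    · exact ⟨by decide, AB_ne _ _ _ _ h⟩
    · exact Or.inr ⟨rfl, h.1⟩
    · exact ⟨by decide, (AB_ne _ _ _ _ h).symm⟩
    · exact absurd h (fun h => h)
  · obtain ⟨m, h0, h1, h2⟩ := one_missing t hs
    have hin := up_inner H x n t b m h0 h1 h2
    have key : ∀ a c, H.Adj a c → (upg H x n t b).Reachable (.inl a) (.inl c) := by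
      intro a c hac
      by_cases ha : a = x
      · subst ha
        obtain ⟨i, rfl⟩ := hxn c hac
        have h3 : (upg H a n t b).Adj (.inr (i, true)) (.inl (n i)) := ⟨rfl, (ht i).mpr hac⟩
        exact (hin (i, true)).trans h3.reachable
      · by_cases hc : c = x
        · subst hc
          obtain ⟨i, rfl⟩ := hxn a hac.symm
          have h3 : (upg H c n t b).Adj (.inr (i, true)) (.inl (n i)) := ⟨rfl, (ht i).mpr hac.symm⟩
          exact ((hin (i, true)).trans h3.reachable).symm
        · have h3 : (upg H x n t b).Adj (.inl a) (.inl c) := ⟨hac, ha, hc⟩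
          exact h3.reachable
    have hall : ∀ v, (upg H x n t b).Reachable (.inl x) v := by
      rintro (v | v)
      · exact reach_map H _ Sum.inl key (hc.preconnected x v)
      · exact hin v
    have : Nonempty (V ⊕ Fin 3 × Bool) := ⟨.inl x⟩
    exact ⟨fun a c => (hall a).symm.trans (hall c)⟩
  · rintro (u | ⟨i, (_ | _)⟩)
    · by_cases hu : u = x
      · subst hu
        rw [ncard3 _ _ (fun i => .inr (i, false)) (by
          intro i j hij
          simpa using hij) (by
          rintro (w | ⟨i, (_ | _)⟩) hw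
          · exact absurd rfl hw.2.1
          · exact ⟨i, rfl⟩
          · exfalso
            have h5 : u = n i := hw.1
            have h6 : H.Adj u (n i) := (ht i).mp hw.2
            rw [← h5] at h6
            exact H.loopless.irrefl u h6)]
        have e : ∀ i, decide ((upg H u n t b).Adj (.inl u) (.inr (i, false))) = XA t b i := by
          intro i
          rw [Bool.eq_iff_iff, decide_eq_true_iff]
          exact ⟨fun h => h.2, fun h => ⟨rfl, h⟩⟩
        rw [e, e, e]
        exact sumXA t b hs
      · rw [← hd u]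
        apply ncard_out _ _ x n hn
        · intro v
          exact ⟨fun h => ⟨h.1, h.2.2⟩, fun h => ⟨h.1, hu, h.2⟩⟩
        · intro i
          constructor
          · rintro ⟨h5, h6⟩
            refine ⟨h5, ?_⟩
            rw [h5]
            exact ((ht i).mp h6).symm
          · rintro ⟨h5, h6⟩
            refine ⟨h5, (ht i).mpr ?_⟩
            rw [← h5]; exact h6.symm
        · intro i h5
          exact hu h5.1
        · intro h5
          exact hxn u h5.symm
    · rw [ncard3 _ _ (nbr x i true) (nbr_inj _ _ _) (by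
          rintro (w | ⟨j, (_ | _)⟩) hw
          · refine ⟨0, ?_⟩
            have h5 : w = x := hw.1
            rw [h5]; rfl
          · exact absurd hw (fun h => h)
          · rcases fin3 j i (AB_ne _ _ _ _ hw).symm with h5 | h5
            · exact ⟨1, by rw [h5]; rfl⟩
            · exact ⟨2, by rw [h5]; rfl⟩)]
      have e0 : decide ((upg H x n t b).Adj (.inr (i, false)) (nbr x i true 0)) = XA t b i := by
        rw [Bool.eq_iff_iff, decide_eq_true_iff]
        exact ⟨fun h => h.2, fun h => ⟨rfl, h⟩⟩
      have e1 : decide ((upg H x n t b).Adj (.inr (i, false)) (nbr x i true 1)) =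
          AB t b i (i + 1) := by
        rw [Bool.eq_iff_iff, decide_eq_true_iff]
        exact ⟨fun h => h, fun h => h⟩
      have e2 : decide ((upg H x n t b).Adj (.inr (i, false)) (nbr x i true 2)) =
          AB t b i (i + 2) := by
        rw [Bool.eq_iff_iff, decide_eq_true_iff]
        exact ⟨fun h => h, fun h => h⟩
      rw [e0, e1, e2]
      exact sumA t b hs i
    · rw [ncard3 _ _ (nbr (n i) i false) (nbr_inj _ _ _) (by
          rintro (w | ⟨j, (_ | _)⟩) hw
          · refine ⟨0, ?_⟩
            have h5 : w = n i := hw.1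
            rw [h5]; rfl
          · rcases fin3 j i (AB_ne _ _ _ _ hw) with h5 | h5
            · exact ⟨1, by rw [h5]; rfl⟩
            · exact ⟨2, by rw [h5]; rfl⟩
          · exact absurd hw (fun h => h))]
      have e0 : decide ((upg H x n t b).Adj (.inr (i, true)) (nbr (n i) i false 0)) = t i := by
        rw [Bool.eq_iff_iff, decide_eq_true_iff]
        exact ⟨fun h => h.2, fun h => ⟨rfl, h⟩⟩
      have e1 : decide ((upg H x n t b).Adj (.inr (i, true)) (nbr (n i) i false 1)) =
          AB t b (i + 1) i := by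
        rw [Bool.eq_iff_iff, decide_eq_true_iff]
        exact ⟨fun h => h, fun h => h⟩
      have e2 : decide ((upg H x n t b).Adj (.inr (i, true)) (nbr (n i) i false 2)) =
          AB t b (i + 2) i := by
        rw [Bool.eq_iff_iff, decide_eq_true_iff]
        exact ⟨fun h => h, fun h => h⟩
      rw [e0, e1, e2]
      exact sumB t b hs i

set_option synthInstance.maxSize 2000 in
/-- the local analysis -/
theorem local_main : ∀ xa : Fin 3 → Bool, (xa 0).toNat + (xa 1).toNat + (xa 2).toNat = 2 →
    ∀ p : Fin 3 → Bool, ∀ q : Fin 3 → Bool, (∀ i, (xa i).toNat + (p i).toNat + (q i).toNat = 2) →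
    ∀ t : Fin 3 → Bool, (∀ i, (t i).toNat + (q (i + 1)).toNat + (p (i + 2)).toNat = 2) →
    (∀ i, xa i = true ∨ t i = true) →
    (t 0).toNat + (t 1).toNat + (t 2).toNat = 2 ∧
    ((∀ i, xa i = XA t false i ∧ p i = AB t false i (i + 1) ∧ q i = AB t false i (i + 2)) ∨
    (∀ i, xa i = XA t true i ∧ p i = AB t true i (i + 1) ∧ q i = AB t true i (i + 2))) := by
  decide

theorem closed_reach {W : Type} (K : SimpleGraph W) (C : W → Prop)
    (h : ∀ a c, C a → K.Adj a c → C c) {a c : W} (ha : C a) (hac : K.Reachable a c) : C c := by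
  obtain ⟨w⟩ := hac
  induction w with
  | nil => exact ha
  | cons hadj _ ih => exact ih (h _ _ ha hadj)

section down

variable {G : SimpleGraph V} {x : V} {n : Fin 3 → V} {K : SimpleGraph (V ⊕ Fin 3 × Bool)}

theorem x_ne (hx : G.neighborSet x = Set.range n) (i : Fin 3) : x ≠ n i := by
  have : n i ∈ G.neighborSet x := by rw [hx]; exact ⟨i, rfl⟩
  exact this.ne

theorem adj_x (hx : G.neighborSet x = Set.range n) (hK : K ≤ ins G x n)
    (w : V ⊕ Fin 3 × Bool) (h : K.Adj (.inl x) w) : ∃ i, w = .inr (i, false) := by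
  have h1 := hK h
  rcases w with (w | ⟨i, (_ | _)⟩)
  · exact absurd rfl h1.2.1
  · exact ⟨i, rfl⟩
  · rcases h1 with h2 | h2
    · exact absurd h2.1 (by decide)
    · exact absurd h2.2 (x_ne hx i)

theorem adj_A (hK : K ≤ ins G x n) (i : Fin 3)
    (w : V ⊕ Fin 3 × Bool) (h : K.Adj (.inr (i, false)) w) : ∃ j, w = nbr x i true j := by
  have h1 := hK h
  rcases w with (w | ⟨j, (_ | _)⟩)
  · rcases h1 with h2 | h2
    · exact ⟨0, by rw [h2.2]; rfl⟩
    · exact absurd h2.1 (by decide)
  · exact absurd rfl h1.1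
  · rcases fin3 j i (Ne.symm h1.2) with h5 | h5
    · exact ⟨1, by rw [h5]; rfl⟩
    · exact ⟨2, by rw [h5]; rfl⟩

theorem adj_B (hK : K ≤ ins G x n) (i : Fin 3)
    (w : V ⊕ Fin 3 × Bool) (h : K.Adj (.inr (i, true)) w) : ∃ j, w = nbr (n i) i false j := by
  have h1 := hK h
  rcases w with (w | ⟨j, (_ | _)⟩)
  · rcases h1 with h2 | h2
    · exact absurd h2.1 (by decide)
    · exact ⟨0, by rw [h2.2]; rfl⟩
  · rcases fin3 j i (Ne.symm h1.2) with h5 | h5
    · exact ⟨1, by rw [h5]; rfl⟩
    · exact ⟨2, by rw [h5]; rfl⟩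
  · exact absurd rfl h1.1

theorem inr_false_inj : Function.Injective
    (fun i : Fin 3 => (Sum.inr (i, false) : V ⊕ Fin 3 × Bool)) := by
  intro i j hij
  simpa using hij

open Classical in
theorem degs (hx : G.neighborSet x = Set.range n) (hK : K ≤ ins G x n)
    (hd : ∀ v, (K.neighborSet v).ncard = 2) :
    ((decide (K.Adj (.inl x) (.inr (0, false)))).toNat +
      (decide (K.Adj (.inl x) (.inr (1, false)))).toNat +
      (decide (K.Adj (.inl x) (.inr (2, false)))).toNat = 2) ∧
    (∀ i : Fin 3, (decide (K.Adj (.inl x) (.inr (i, false)))).toNat +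
      (decide (K.Adj (.inr (i, false)) (.inr (i + 1, true)))).toNat +
      (decide (K.Adj (.inr (i, false)) (.inr (i + 2, true)))).toNat = 2) ∧
    (∀ i : Fin 3, (decide (K.Adj (.inr (i, true)) (.inl (n i)))).toNat +
      (decide (K.Adj (.inr (i + 1, false)) (.inr (i, true)))).toNat +
      (decide (K.Adj (.inr (i + 2, false)) (.inr (i, true)))).toNat = 2) := by
  refine ⟨?_, ?_, ?_⟩
  · have h1 := hd (.inl x)
    rw [ncard3 K _ _ inr_false_inj (adj_x hx hK)] at h1
    exact h1
  · intro i
    have h1 := hd (.inr (i, false))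
    rw [ncard3 K _ _ (nbr_inj x i true) (adj_A hK i)] at h1
    refine Eq.trans ?_ h1
    have e : (K.Adj (.inl x) (.inr (i, false))) = (K.Adj (.inr (i, false)) (nbr x i true 0)) :=
      propext ⟨fun h => h.symm, fun h => h.symm⟩
    simp only [e]
    rfl
  · intro i
    have h1 := hd (.inr (i, true))
    rw [ncard3 K _ _ (nbr_inj (n i) i false) (adj_B hK i)] at h1
    refine Eq.trans ?_ h1
    have e1 : (K.Adj (.inr (i + 1, false)) (.inr (i, true))) =
        (K.Adj (.inr (i, true)) (nbr (n i) i false 1)) :=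
      propext ⟨fun h => h.symm, fun h => h.symm⟩
    have e2 : (K.Adj (.inr (i + 2, false)) (.inr (i, true))) =
        (K.Adj (.inr (i, true)) (nbr (n i) i false 2)) :=
      propext ⟨fun h => h.symm, fun h => h.symm⟩
    simp only [e1, e2]
    rfl

open Classical in
theorem no_square (hx : G.neighborSet x = Set.range n) (hK : K ≤ ins G x n)
    (hc : K.Connected) (hd : ∀ v, (K.neighborSet v).ncard = 2) (i : Fin 3)
    (h1 : ¬ K.Adj (.inl x) (.inr (i, false))) (h2 : ¬ K.Adj (.inr (i, true)) (.inl (n i))) :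
    False := by
  obtain ⟨d1, d2, d3⟩ := degs hx hK hd
  have f1 : i + 1 + 1 = i + 2 := by clear h1 h2; revert i; decide
  have f2 : i + 1 + 2 = i := by clear h1 h2; revert i; decide
  have f3 : i + 2 + 1 = i := by clear h1 h2; revert i; decide
  have f4 : i + 2 + 2 = i + 1 := by clear h1 h2; revert i; decide
  have f5 : ∀ l : Fin 3, l = i ∨ l = i + 1 ∨ l = i + 2 := by clear h1 h2; revert i; decide
  have d1' : (decide (K.Adj (.inl x) (.inr (i, false)))).toNat +
      (decide (K.Adj (.inl x) (.inr (i + 1, false)))).toNat +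
      (decide (K.Adj (.inl x) (.inr (i + 2, false)))).toNat = 2 := by
    refine Eq.trans ?_ d1
    clear h1 h2 f1 f2 f3 f4 f5
    fin_cases i
    · rfl
    · show (decide (K.Adj (.inl x) (.inr (1, false)))).toNat +
        (decide (K.Adj (.inl x) (.inr (2, false)))).toNat +
        (decide (K.Adj (.inl x) (.inr (0, false)))).toNat = _
      omega
    · show (decide (K.Adj (.inl x) (.inr (2, false)))).toNat +
        (decide (K.Adj (.inl x) (.inr (0, false)))).toNat +
        (decide (K.Adj (.inl x) (.inr (1, false)))).toNat = _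
      omega
  have d2j := d2 (i + 1)
  have d2k := d2 (i + 2)
  have d3i := d3 i
  rw [f1, f2] at d2j
  rw [f3, f4] at d2k
  have b1 : ∀ b : Bool, b.toNat ≤ 1 := by decide
  have e1 : (decide (K.Adj (.inl x) (.inr (i, false)))).toNat = 0 := by simp [h1]
  have e2 : (decide (K.Adj (.inr (i, true)) (.inl (n i)))).toNat = 0 := by simp [h2]
  have g1 := b1 (decide (K.Adj (.inl x) (.inr (i + 1, false))))
  have g2 := b1 (decide (K.Adj (.inl x) (.inr (i + 2, false))))
  have g3 := b1 (decide (K.Adj (.inr (i + 1, false)) (.inr (i, true))))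
  have g4 := b1 (decide (K.Adj (.inr (i + 2, false)) (.inr (i, true))))
  have k1 : (decide (K.Adj (.inr (i + 1, false)) (.inr (i + 2, true)))).toNat = 0 := by omega
  have k2 : (decide (K.Adj (.inr (i + 2, false)) (.inr (i + 1, true)))).toNat = 0 := by omega
  have z : ∀ P : Prop, (decide P).toNat = 0 → ¬ P := by
    intro P hP hP'
    simp [hP'] at hP
  have k1' := z _ k1
  have k2' := z _ k2
  have hcl := closed_reach K (fun a => a = .inl x ∨ a = .inr (i + 1, false) ∨
    a = .inr (i + 2, false) ∨ a = .inr (i, true)) (by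
      rintro a c (rfl | rfl | rfl | rfl) hac
      · obtain ⟨l, rfl⟩ := adj_x hx hK c hac
        rcases f5 l with rfl | rfl | rfl
        · exact absurd hac h1
        · exact Or.inr (Or.inl rfl)
        · exact Or.inr (Or.inr (Or.inl rfl))
      · obtain ⟨l, hl⟩ := adj_A hK _ c hac
        subst hl
        revert hac
        fin_cases l
        · intro _; exact Or.inl rfl
        · intro hac
          have : K.Adj (.inr (i + 1, false)) (.inr (i + 1 + 1, true)) := hac
          rw [f1] at this
          exact absurd this k1'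
        · intro hac
          right; right; right
          show Sum.inr (i + 1 + 2, true) = _
          rw [f2]
      · obtain ⟨l, hl⟩ := adj_A hK _ c hac
        subst hl
        revert hac
        fin_cases l
        · intro _; exact Or.inl rfl
        · intro hac
          right; right; right
          show Sum.inr (i + 2 + 1, true) = _
          rw [f3]
        · intro hac
          have : K.Adj (.inr (i + 2, false)) (.inr (i + 2 + 2, true)) := hac
          rw [f4] at this
          exact absurd this k2'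
      · obtain ⟨l, hl⟩ := adj_B hK _ c hac
        subst hl
        revert hac
        fin_cases l
        · intro hac; exact absurd hac h2
        · intro _; exact Or.inr (Or.inl rfl)
        · intro _; exact Or.inr (Or.inr (Or.inl rfl)))
    (Or.inl rfl) (hc.preconnected (.inl x) (.inr (i, false)))
  have n1 : i ≠ i + 1 := by clear * -; revert i; decide
  have n2 : i ≠ i + 2 := by clear * -; revert i; decide
  rcases hcl with h | h | h | h
  · cases h
  · simp only [Sum.inr.injEq, Prod.mk.injEq, and_true] at h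
    exact n1 h
  · simp only [Sum.inr.injEq, Prod.mk.injEq, and_true] at h
    exact n2 h
  · simp at h

theorem low_x (hn : Function.Injective n) (hx : G.neighborSet x = Set.range n)
    (hK : K ≤ ins G x n) (i : Fin 3) :
    (low K x n).Adj x (n i) ↔ K.Adj (.inr (i, true)) (.inl (n i)) := by
  constructor
  · rintro ⟨h1, h2 | ⟨j, _, h3, h4⟩ | ⟨j, h3, _⟩⟩
    · exact absurd rfl (hK h2).2.1
    · rw [hn h3]; exact h4
    · exact absurd h3.symm (x_ne hx i)
  · intro h
    exact ⟨x_ne hx i, Or.inr (Or.inl ⟨i, rfl, rfl, h⟩)⟩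

theorem low_mem (hn : Function.Injective n) (hx : G.neighborSet x = Set.range n)
    (hK : K ≤ ins G x n) (hc : K.Connected) (hd : ∀ v, (K.neighborSet v).ncard = 2)
    (hs : (K.neighborSet (.inl x)).ncard = 2)
    (hT : ((low K x n).neighborSet x).ncard = 2) :
    low K x n ≤ G ∧ (low K x n).Connected ∧ ∀ v, ((low K x n).neighborSet v).ncard = 2 := by
  have hxadj : ∀ i, G.Adj x (n i) := fun i => by
    have : n i ∈ G.neighborSet x := by rw [hx]; exact ⟨i, rfl⟩
    exact this
  refine ⟨?_, ?_, ?_⟩
  · rintro u v ⟨h1, h2 | ⟨j, rfl, rfl, h4⟩ | ⟨j, rfl, rfl, h4⟩⟩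
    · exact (hK h2).1
    · exact hxadj j
    · exact (hxadj j).symm
  · have key : ∀ a c, K.Adj a c → (low K x n).Reachable (qq x a) (qq x c) := by
      have aux : ∀ u (i : Fin 3) (b : Bool), K.Adj (.inl u) (.inr (i, b)) →
          (low K x n).Reachable u x := by
        intro u i b h
        have h1 := hK h
        rcases h1 with ⟨_, h3⟩ | ⟨h3, h4⟩
        · rw [h3]
        · subst h4
          subst h3
          exact ((low_x hn hx hK i).mpr h.symm).symm.reachable
      rintro (u | ⟨i, b⟩) (v | ⟨j, c⟩) h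
      · have h1 := hK h
        have : (low K x n).Adj u v := ⟨h1.1.ne, Or.inl h⟩
        exact this.reachable
      · exact aux u j c h
      · exact (aux v i b h.symm).symm
      · exact SimpleGraph.Reachable.refl _
    have : Nonempty V := ⟨x⟩
    exact ⟨fun u v => reach_map K _ (qq x) key (hc.preconnected (.inl u) (.inl v))⟩
  · intro u
    by_cases hu : u = x
    · rw [hu]; exact hT
    · rw [← hd (.inl u)]
      symm
      apply ncard_out _ _ x n hn
      · intro v
        constructor
        · intro h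
          have h1 := hK h
          exact ⟨⟨h1.1.ne, Or.inl h⟩, h1.2.2⟩
        · rintro ⟨⟨_, h2 | ⟨j, h3, _⟩ | ⟨j, h3, _⟩⟩, hv⟩
          · exact h2
          · exact absurd h3 hu
          · exact absurd h3 hv
      · intro i
        constructor
        · intro h
          rcases hK h with ⟨h3, _⟩ | ⟨_, h4⟩
          · exact absurd h3 (by decide)
          · refine ⟨h4, ?_⟩
            subst h4
            exact ((low_x hn hx hK i).mpr h.symm).symm
        · rintro ⟨h3, h4⟩
          subst h3
          exact ((low_x hn hx hK i).mp h4.symm).symm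
      · intro i h
        rcases hK h with ⟨_, h3⟩ | ⟨h3, _⟩
        · exact hu h3
        · exact absurd h3 (by decide)
      · rintro ⟨_, h2 | ⟨j, h3, _⟩ | ⟨j, _, h3, _⟩⟩
        · exact absurd rfl (hK h2).2.2
        · exact absurd h3 hu
        · exact ⟨j, h3⟩

open Classical in
theorem down_main (hn : Function.Injective n) (hx : G.neighborSet x = Set.range n)
    (hK : K ≤ ins G x n) (hc : K.Connected) (hd : ∀ v, (K.neighborSet v).ncard = 2) :
    (low K x n ≤ G ∧ (low K x n).Connected ∧ ∀ v, ((low K x n).neighborSet v).ncard = 2) ∧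
    ∃ b, upg (low K x n) x n (fun i => decide ((low K x n).Adj x (n i))) b = K := by
  obtain ⟨d1, d2, d3⟩ := degs hx hK hd
  have f2 : ∀ i : Fin 3, i + 1 + 2 = i := by decide
  have f3 : ∀ i : Fin 3, i + 2 + 1 = i := by decide
  have et : ∀ i, decide ((low K x n).Adj x (n i)) =
      decide (K.Adj (.inr (i, true)) (.inl (n i))) := fun i => by
    rw [Bool.eq_iff_iff, decide_eq_true_iff, decide_eq_true_iff]
    exact low_x hn hx hK i
  obtain ⟨l1, l2⟩ := local_main (fun i => decide (K.Adj (.inl x) (.inr (i, false)))) d1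
    (fun i => decide (K.Adj (.inr (i, false)) (.inr (i + 1, true))))
    (fun i => decide (K.Adj (.inr (i, false)) (.inr (i + 2, true)))) d2
    (fun i => decide ((low K x n).Adj x (n i)))
    (fun i => by
      show (decide ((low K x n).Adj x (n i))).toNat +
        (decide (K.Adj (.inr (i + 1, false)) (.inr (i + 1 + 2, true)))).toNat +
        (decide (K.Adj (.inr (i + 2, false)) (.inr (i + 2 + 1, true)))).toNat = 2
      rw [et, f2, f3]
      exact d3 i)
    (fun i => by
      simp only [decide_eq_true_eq]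
      by_contra hno
      push Not at hno
      rw [low_x hn hx hK i] at hno
      exact no_square hx hK hc hd i hno.1 hno.2)
  have hT : ((low K x n).neighborSet x).ncard = 2 := by
    rw [ncard3 (low K x n) x n hn (by
      intro w hw
      rcases hw with ⟨h1, h2 | ⟨j, _, h3, _⟩ | ⟨j, h3, h4, _⟩⟩
      · exact absurd rfl (hK h2).2.1
      · exact ⟨j, h3⟩
      · exact absurd h3.symm h1)]
    exact l1
  refine ⟨low_mem hn hx hK hc hd (hd _) hT, ?_⟩
  have main : ∀ b, (∀ i, decide (K.Adj (.inl x) (.inr (i, false))) =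
      XA (fun i => decide ((low K x n).Adj x (n i))) b i ∧
      decide (K.Adj (.inr (i, false)) (.inr (i + 1, true))) =
      AB (fun i => decide ((low K x n).Adj x (n i))) b i (i + 1) ∧
      decide (K.Adj (.inr (i, false)) (.inr (i + 2, true))) =
      AB (fun i => decide ((low K x n).Adj x (n i))) b i (i + 2)) →
      upg (low K x n) x n (fun i => decide ((low K x n).Adj x (n i))) b = K := by
    intro b hb
    set t : Fin 3 → Bool := fun i => decide ((low K x n).Adj x (n i)) with htdef
    have ht : ∀ i, t i = true ↔ K.Adj (.inr (i, true)) (.inl (n i)) := by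
      intro i
      rw [htdef]
      simp only [decide_eq_true_eq]
      exact low_x hn hx hK i
    have c1 : ∀ u v, (upg (low K x n) x n t b).Adj (.inl u) (.inl v) ↔
        K.Adj (.inl u) (.inl v) := by
      intro u v
      constructor
      · rintro ⟨⟨_, h2 | ⟨j, h3, _⟩ | ⟨j, h3, _⟩⟩, hu, hv⟩
        · exact h2
        · exact absurd h3 hu
        · exact absurd h3 hv
      · intro h
        have h1 := hK h
        exact ⟨⟨h1.1.ne, Or.inl h⟩, h1.2⟩
    have c2 : ∀ u i, (upg (low K x n) x n t b).Adj (.inl u) (.inr (i, true)) ↔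
        K.Adj (.inl u) (.inr (i, true)) := by
      intro u i
      constructor
      · rintro ⟨h1, h2⟩
        rw [h1]
        exact ((ht i).mp h2).symm
      · intro h
        rcases hK h with ⟨h3, _⟩ | ⟨_, h3⟩
        · exact absurd h3 (by decide)
        · subst h3
          exact ⟨rfl, (ht i).mpr h.symm⟩
    have c3 : ∀ u i, (upg (low K x n) x n t b).Adj (.inl u) (.inr (i, false)) ↔
        K.Adj (.inl u) (.inr (i, false)) := by
      intro u i
      constructor
      · rintro ⟨h1, h2⟩
        rw [h1]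
        rw [← (hb i).1] at h2
        simpa using h2
      · intro h
        rcases hK h with ⟨_, h3⟩ | ⟨h3, _⟩
        · subst h3
          refine ⟨rfl, ?_⟩
          rw [← (hb i).1]
          simpa using h
        · exact absurd h3 (by decide)
    have c4 : ∀ i j, (upg (low K x n) x n t b).Adj (.inr (i, false)) (.inr (j, true)) ↔
        K.Adj (.inr (i, false)) (.inr (j, true)) := by
      intro i j
      have e1 : (upg (low K x n) x n t b).Adj (.inr (i, false)) (.inr (j, true)) ↔
        AB t b i j = true := Iff.rfl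
      rw [e1]
      by_cases hij : i = j
      · subst hij
        constructor
        · intro h; exact absurd rfl (AB_ne _ _ _ _ h)
        · intro h; exact absurd rfl (hK h).2
      · rcases fin3 j i (Ne.symm hij) with rfl | rfl
        · rw [← (hb i).2.1]; simp
        · rw [← (hb i).2.2]; simp
    have c5 : ∀ i j, ¬ K.Adj (.inr (i, true)) (.inr (j, true)) := by
      intro i j h
      exact absurd rfl (hK h).1
    have c6 : ∀ i j, ¬ K.Adj (.inr (i, false)) (.inr (j, false)) := by
      intro i j h
      exact absurd rfl (hK h).1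
    ext a c
    rcases a with (u | ⟨i, (_ | _)⟩) <;> rcases c with (v | ⟨j, (_ | _)⟩)
    · exact c1 u v
    · exact c3 u j
    · exact c2 u j
    · rw [SimpleGraph.adj_comm, K.adj_comm]; exact c3 v i
    · exact ⟨fun h => absurd h (fun h => h), fun h => absurd h (c6 i j)⟩
    · exact c4 i j
    · rw [SimpleGraph.adj_comm, K.adj_comm]; exact c2 v i
    · rw [SimpleGraph.adj_comm, K.adj_comm]; exact c4 j i
    · exact ⟨fun h => absurd h (fun h => h), fun h => absurd h (c5 i j)⟩
  rcases l2 with l2 | l2
  · exact ⟨false, main false l2⟩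
  · exact ⟨true, main true l2⟩

theorem low_up {H : SimpleGraph V} (hx : G.neighborSet x = Set.range n) (hH : H ≤ G)
    (t : Fin 3 → Bool) (ht : ∀ i, t i = true ↔ H.Adj x (n i)) (b : Bool) :
    low (upg H x n t b) x n = H := by
  ext u v
  constructor
  · rintro ⟨h1, h2 | ⟨i, rfl, rfl, h3⟩ | ⟨i, rfl, rfl, h3⟩⟩
    · exact h2.1
    · exact (ht i).mp h3.2
    · exact ((ht i).mp h3.2).symm
  · intro h
    refine ⟨h.ne, ?_⟩
    by_cases hu : u = x
    · subst hu
      have h1 : v ∈ G.neighborSet u := hH h
      rw [hx] at h1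
      obtain ⟨i, rfl⟩ := h1
      exact Or.inr (Or.inl ⟨i, rfl, rfl, rfl, (ht i).mpr h⟩)
    · by_cases hv : v = x
      · subst hv
        have h1 : u ∈ G.neighborSet v := hH h.symm
        rw [hx] at h1
        obtain ⟨i, rfl⟩ := h1
        exact Or.inr (Or.inr ⟨i, rfl, rfl, rfl, (ht i).mpr h.symm⟩)
      · exact Or.inl ⟨h, hu, hv⟩

theorem XA_ne (t : Fin 3 → Bool) (h : (t 0).toNat + (t 1).toNat + (t 2).toNat = 2) :
    ∃ i, XA t false i = false ∧ XA t true i = true := by
  revert t; decide

end down

end inh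

theorem inh : InhStmt := by
  classical
  intro V _ G x n hn hx
  let tt : SimpleGraph V → Fin 3 → Bool := fun H i => decide (H.Adj x (n i))
  have htt : ∀ (H : SimpleGraph V) i, tt H i = true ↔ H.Adj x (n i) := by
    intro H i; simp [tt]
  let F : {H : SimpleGraph V // H ≤ G ∧ H.Connected ∧ ∀ v, (H.neighborSet v).ncard = 2} × Bool →
      {K : SimpleGraph (V ⊕ Fin 3 × Bool) //
        K ≤ ins G x n ∧ K.Connected ∧ ∀ v, (K.neighborSet v).ncard = 2} :=
    fun p => ⟨upg p.1.1 x n (tt p.1.1) p.2,
      up_mem hn hx p.1.2.1 p.1.2.2.1 p.1.2.2.2 _ (htt _) p.2⟩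
  have hF : Function.Bijective F := by
    constructor
    · rintro ⟨⟨H, hH⟩, b⟩ ⟨⟨H', hH'⟩, b'⟩ h
      have h1 : upg H x n (tt H) b = upg H' x n (tt H') b' := congrArg Subtype.val h
      have h2 : H = H' := by
        rw [← low_up (G := G) (n := n) hx hH.1 _ (htt H) b,
          ← low_up (G := G) (n := n) hx hH'.1 _ (htt H') b', h1]
      subst h2
      have h3 : b = b' := by
        obtain ⟨i, h4, h5⟩ := XA_ne (tt H) (sum_t hn hx hH.1 _ (htt H) (hH.2.2 x))
        have h6 : (upg H x n (tt H) b).Adj (.inl x) (.inr (i, false)) ↔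
          (upg H x n (tt H) b').Adj (.inl x) (.inr (i, false)) := by rw [h1]
        have h7 : ∀ c, (upg H x n (tt H) c).Adj (.inl x) (.inr (i, false)) ↔
            XA (tt H) c i = true := fun c => ⟨fun h => h.2, fun h => ⟨rfl, h⟩⟩
        rw [h7, h7] at h6
        cases b <;> cases b'
        · rfl
        · rw [h4, h5] at h6; simp at h6
        · rw [h4, h5] at h6; simp at h6
        · rfl
      subst h3
      rfl
    · rintro ⟨K, hK, hc, hd⟩
      obtain ⟨h1, b, hb⟩ := down_main hn hx hK hc hd
      exact ⟨⟨⟨low K x n, h1⟩, b⟩, Subtype.ext hb⟩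
  have h1 := Nat.card_congr (Equiv.ofBijective F hF)
  rw [Nat.card_prod] at h1
  have h2 : Nat.card Bool = 2 := by simp
  rw [h2] at h1
  unfold hamCount
  rw [← h1, mul_comm]

end Pool.Agent.HAM.H27
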