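import Pool.Agent.Helper43_HAM.Stmts

set_option autoImplicit false

namespace Pool.Agent.HAM.H27

open Pool.Agent.HAM Equiv

/-! ### PLN: the map of a word is plane -/

section gen

variable {E : Type} [DecidableEq E]

theorem flip_of_notMem {S : Finset E} {d : Dart E} (h : d.1 ∉ S) : flip S d = d := by
  show (d.1, if d.1 ∈ S then !d.2 else d.2) = d
  rw [if_neg h]

theorem flip_of_mem {S : Finset E} {d : Dart E} (h : d.1 ∈ S) : flip S d = (d.1, !d.2) := by
  show (d.1, if d.1 ∈ S then !d.2 else d.2) = _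
  rw [if_pos h]

theorem flip_fst (S : Finset E) (d : Dart E) : (flip S d).1 = d.1 := rfl

theorem rho_apply (σ : Perm (Dart E)) (S : Finset E) (d : Dart E) :
    rho σ S d = flip S (σ d) := rfl

theorem rho_insert (σ : Perm (Dart E)) {S : Finset E} {e : E} (he : e ∉ S) :
    rho σ (insert e S) = swap (e, false) (e, true) * rho σ S := by
  ext1 d
  rw [Perm.mul_apply, rho_apply, rho_apply]
  by_cases h : (σ d).1 = e
  · have h1 : (σ d).1 ∉ S := by rw [h]; exact he
    have h2 : (σ d).1 ∈ insert e S := by rw [h]; exact Finset.mem_insert_self _ _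
    rw [flip_of_notMem h1, flip_of_mem h2]
    generalize σ d = z at h ⊢
    obtain ⟨x, b⟩ := z
    have h' : x = e := h
    subst h'
    cases b
    · simp
    · simp
  · have h3 : flip (insert e S) (σ d) = flip S (σ d) := by
      by_cases h4 : (σ d).1 ∈ S
      · rw [flip_of_mem h4, flip_of_mem (Finset.mem_insert_of_mem h4)]
      · have h5 : (σ d).1 ∉ insert e S := by
          rw [Finset.mem_insert, not_or]; exact ⟨h, h4⟩
        rw [flip_of_notMem h4, flip_of_notMem h5]
    rw [h3, swap_apply_of_ne_of_ne]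
    · intro h6
      apply h
      rw [← flip_fst S, h6]
    · intro h6
      apply h
      rw [← flip_fst S, h6]

/-- the first dart of an edge outside `S` after `x` is `y` -/
inductive Nx (σ : Perm (Dart E)) (S : Finset E) : Dart E → Dart E → Prop
  | base (x : Dart E) : (rho σ S x).1 ∉ S → Nx σ S x (rho σ S x)
  | step (x y : Dart E) : (rho σ S x).1 ∈ S → Nx σ S (rho σ S x) y → Nx σ S x y

theorem Nx.same {σ : Perm (Dart E)} {S : Finset E} {x y : Dart E} (h : Nx σ S x y) :
    (rho σ S).SameCycle x y := by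
  induction h with
  | base x _ => exact ⟨1, by simp⟩
  | step x y _ _ ih =>
    have h1 : (rho σ S).SameCycle x (rho σ S x) := ⟨1, by simp⟩
    exact h1.trans ih

theorem Nx.add1 {σ : Perm (Dart E)} {S : Finset E} {e : E} (he : e ∉ S) {x y : Dart E}
    (h : Nx σ S x y) (hy : y.1 ≠ e) : Nx σ (insert e S) x y := by
  have key : ∀ z : Dart E, (rho σ S z).1 ≠ e → rho σ (insert e S) z = rho σ S z := by
    intro z hz
    rw [rho_insert σ he, Perm.mul_apply, swap_apply_of_ne_of_ne]
    · intro h6; apply hz; rw [h6]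
    · intro h6; apply hz; rw [h6]
  induction h with
  | base x hx =>
    rw [← key x hy]
    apply Nx.base
    rw [key x hy, Finset.mem_insert, not_or]
    exact ⟨hy, hx⟩
  | step x y hx _ ih =>
    have h1 : (rho σ S x).1 ≠ e := by
      intro h2; rw [h2] at hx; exact he hx
    apply Nx.step
    · rw [key x h1]; exact Finset.mem_insert_of_mem hx
    · rw [key x h1]; exact ih hy

theorem Nx.add2 {σ : Perm (Dart E)} {S : Finset E} {e : E} (he : e ∉ S) {x y : Dart E} {b : Bool}
    (h : Nx σ S x (e, b)) (h' : Nx σ S (e, !b) y) (hy : y.1 ≠ e) : Nx σ (insert e S) x y := by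
  have key : ∀ z : Dart E, (rho σ S z).1 ≠ e → rho σ (insert e S) z = rho σ S z := by
    intro z hz
    rw [rho_insert σ he, Perm.mul_apply, swap_apply_of_ne_of_ne]
    · intro h6; apply hz; rw [h6]
    · intro h6; apply hz; rw [h6]
  have h2 := h'.add1 he hy
  generalize hq : (e, b) = q at h
  induction h with
  | base x hx =>
    have h3 : rho σ (insert e S) x = (e, !b) := by
      rw [rho_insert σ he, Perm.mul_apply, ← hq]
      cases b <;> simp
    apply Nx.step
    · rw [h3]; exact Finset.mem_insert_self _ _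
    · rw [h3]; exact h2
  | step x y hx _ ih =>
    have h1 : (rho σ S x).1 ≠ e := by
      intro h2; rw [h2] at hx; exact he hx
    apply Nx.step
    · rw [key x h1]; exact Finset.mem_insert_of_mem hx
    · rw [key x h1]; exact ih hq

theorem conn_of_same {σ : Perm (Dart E)} {S : Finset E} {x y : Dart E}
    (h : (rho σ S).SameCycle x y) : (conn σ S).r x y := by
  have h1 : ∀ z, (conn σ S).r z (rho σ S z) := by
    intro z
    exact Relation.EqvGen.trans _ _ _ (Relation.EqvGen.rel z (σ z) (Or.inl rfl))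
      (Relation.EqvGen.rel (σ z) (flip S (σ z)) (Or.inr rfl))
  have h2 : ∀ (k : ℤ) z, (conn σ S).r z ((rho σ S ^ k) z) := by
    intro k
    induction k using Int.induction_on with
    | zero => intro z; exact Relation.EqvGen.refl _
    | succ i ih =>
      intro z
      rw [zpow_add_one, Perm.mul_apply]
      exact Relation.EqvGen.trans _ _ _ (h1 z) (ih _)
    | pred i ih =>
      intro z
      rw [zpow_sub_one, Perm.mul_apply]
      refine Relation.EqvGen.trans _ _ _ (Relation.EqvGen.symm _ _ ?_) (ih _)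
      have := h1 ((rho σ S)⁻¹ z)
      rwa [show rho σ S ((rho σ S)⁻¹ z) = z from by simp] at this
  obtain ⟨k, rfl⟩ := h
  exact h2 k x

/-- the Euler relation for the state `S` -/
def Qs (σ : Perm (Dart E)) (S : Finset E) : Prop :=
  2 * comp σ S + S.card = cyc σ + cyc (rho σ S)

theorem Qs_merge [Fintype E] (hcyc : CycStmt) (hcom : ComStmt) {σ : Perm (Dart E)} {S : Finset E}
    {e : E} (he : e ∉ S) (hn : ¬ (conn σ S).r (e, false) (e, true)) (h : Qs σ S) :
    Qs σ (insert e S) := by
  have h1 := (hcom E σ S e he).2 hn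
  have h2 := (hcyc (Dart E) (rho σ S) (e, false) (e, true) (by simp)).2
    (fun h3 => hn (conn_of_same h3))
  unfold Qs at h ⊢
  rw [rho_insert σ he, Finset.card_insert_of_notMem he]
  omega

theorem Qs_cancel [Fintype E] (hcyc : CycStmt) (hcom : ComStmt) {σ : Perm (Dart E)} {S : Finset E}
    {e : E} (he : e ∉ S) (hn : (rho σ S).SameCycle (e, false) (e, true)) (h : Qs σ S) :
    Qs σ (insert e S) := by
  have h1 := (hcom E σ S e he).1 (conn_of_same hn)
  have h2 := (hcyc (Dart E) (rho σ S) (e, false) (e, true) (by simp)).1 hn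
  unfold Qs at h ⊢
  rw [rho_insert σ he, Finset.card_insert_of_notMem he]
  omega

theorem rho_empty (σ : Perm (Dart E)) : rho σ ∅ = σ := by
  ext1 d
  rw [rho_apply, flip_of_notMem (Finset.notMem_empty _)]

theorem Qs_empty (σ : Perm (Dart E)) : Qs σ ∅ := by
  have h : conn σ ∅ = Perm.SameCycle.setoid σ := by
    apply Setoid.ext
    intro a b
    constructor
    · intro hab
      have hab' : Relation.EqvGen (fun x y => y = σ x ∨ y = flip (∅ : Finset E) x) a b := hab
      show σ.SameCycle a b
      induction hab' with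
      | rel x y hxy =>
        rcases hxy with rfl | rfl
        · exact ⟨1, by simp⟩
        · rw [flip_of_notMem (Finset.notMem_empty _)]
      | refl x => exact Perm.SameCycle.refl _ _
      | symm x y _ ih => exact (ih (by assumption)).symm
      | trans x y z _ _ ih1 ih2 => exact (ih1 (by assumption)).trans (ih2 (by assumption))
    · intro hab
      have h1 : (rho σ ∅).SameCycle a b := by rw [rho_empty]; exact hab
      exact conn_of_same h1
  unfold Qs comp
  rw [h, rho_empty, Finset.card_empty]
  unfold cyc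
  ring

end gen

/-! ### cyclic lists -/

/-- consecutive elements of the cyclic list are related -/
def Cy {α : Type} (R : α → α → Prop) : List α → Prop
  | [] => True
  | x :: L => List.IsChain R (x :: (L ++ [x]))

theorem Cy.rot {α : Type} {R : α → α → Prop} {A B : List α} (h : Cy R (A ++ B)) :
    Cy R (B ++ A) := by
  cases A with
  | nil => simpa using h
  | cons a A =>
    cases B with
    | nil => simpa using h
    | cons b B =>
      have h1 : List.IsChain R ((a :: A) ++ b :: (B ++ [a])) := by
        have : Cy R (a :: (A ++ b :: B)) := h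
        simpa [Cy] using this
      rw [List.isChain_split] at h1
      have h2 : List.IsChain R ((b :: B) ++ a :: (A ++ [b])) := by
        rw [List.isChain_split]
        exact ⟨by simpa using h1.2, by simpa using h1.1⟩
      show Cy R (b :: (B ++ a :: A))
      simpa [Cy] using h2

theorem Cy.rotate {α : Type} {R : α → α → Prop} {L : List α} (h : Cy R L) (k : ℕ) :
    Cy R (L.rotate k) := by
  rw [List.rotate_eq_drop_append_take_mod]
  apply Cy.rot
  rw [List.take_append_drop]
  exact h

theorem cy_of_cpairs {α : Type} {R : α → α → Prop} {L : List α}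
    (h : ∀ p ∈ cpairs L, R p.1 p.2) : Cy R L := by
  cases L with
  | nil => trivial
  | cons x L =>
    have key : ∀ (L : List α) (x z : α), (∀ p ∈ (x :: L).zip (L ++ [z]), R p.1 p.2) →
        List.IsChain R (x :: (L ++ [z])) := by
      intro L
      induction L with
      | nil =>
        intro x z h
        simp only [List.nil_append, List.zip_cons_cons, List.zip_nil_right, List.mem_singleton,
          forall_eq] at h
        simpa using h
      | cons y L ih =>
        intro x z h
        rw [List.cons_append, List.zip_cons_cons] at h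
        rw [List.cons_append, List.isChain_cons_cons]
        exact ⟨h _ List.mem_cons_self, ih y z (fun p hp => h p (List.mem_cons_of_mem _ hp))⟩
    apply key L x x
    intro p hp
    apply h
    unfold cpairs
    have : (x :: L).rotate 1 = L ++ [x] := by
      rw [List.rotate_cons_succ, List.rotate_zero]
    rw [this]; exact hp

section words

variable {M : ℕ} {σ : Perm (Dart (Fin M))} {S : Finset (Fin M)}

theorem nm_inj {X Y : Dart (Fin M)} (h : nm X = nm Y) : X = Y := by
  have h1 : (nm X).1 = (nm Y).1 := by rw [h]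
  have h2 : (nm X).2 = (nm Y).2 := by rw [h]
  exact Prod.ext (Fin.ext h1) h2

/-- `Nx` for labels -/
def RR (σ : Perm (Dart (Fin M))) (S : Finset (Fin M)) (x y : ℕ × Bool) : Prop :=
  ∃ X Y : Dart (Fin M), nm X = x ∧ nm Y = y ∧ Nx σ S X Y

theorem RR.add1 {e : Fin M} (he : e ∉ S) {x y : ℕ × Bool} (h : RR σ S x y) (hy : y.1 ≠ e.val) :
    RR σ (insert e S) x y := by
  obtain ⟨X, Y, rfl, rfl, h⟩ := h
  exact ⟨X, Y, rfl, rfl, h.add1 he (fun h1 => hy (congrArg Fin.val h1))⟩

theorem RR.add2 {e : Fin M} (he : e ∉ S) {x y : ℕ × Bool} {b : Bool} (h : RR σ S x (e.val, b))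
    (h' : RR σ S (e.val, !b) y) (hy : y.1 ≠ e.val) : RR σ (insert e S) x y := by
  obtain ⟨X, Y, rfl, hY, h⟩ := h
  obtain ⟨Z, W, hZ, rfl, h'⟩ := h'
  have h1 : Y = (e, b) := nm_inj hY
  have h2 : Z = (e, !b) := nm_inj hZ
  subst h1
  subst h2
  exact ⟨X, W, rfl, rfl, h.add2 he h' (fun h1 => hy (congrArg Fin.val h1))⟩

theorem chain_add {e : Fin M} (he : e ∉ S) {b : Bool} {X : List (ℕ × Bool)} {v : ℕ × Bool}
    (h : List.IsChain (RR σ S) (X ++ [(e.val, b)])) (h' : RR σ S (e.val, !b) v)
    (hX : ∀ y ∈ X, y.1 ≠ e.val) (hv : v.1 ≠ e.val) :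
    List.IsChain (RR σ (insert e S)) (X ++ [v]) := by
  rw [List.isChain_append] at h ⊢
  obtain ⟨h1, _, h2⟩ := h
  refine ⟨h1.imp_of_mem_imp (fun a c _ hc hac => hac.add1 he (hX c hc)), List.isChain_singleton _, ?_⟩
  intro x hx y hy
  have : y = v := by simpa using hy.symm
  subst this
  exact (h2 x hx (e.val, b) rfl).add2 he h' hv

theorem cy_merge {e : Fin M} (he : e ∉ S) {b : Bool} {L1 L2 : List (ℕ × Bool)}
    (h1 : Cy (RR σ S) ((e.val, b) :: L1)) (h2 : Cy (RR σ S) ((e.val, !b) :: L2))
    (n1 : L1 ≠ []) (n2 : L2 ≠ []) (hL1 : ∀ y ∈ L1, y.1 ≠ e.val) (hL2 : ∀ y ∈ L2, y.1 ≠ e.val) :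
    Cy (RR σ (insert e S)) (L1 ++ L2) := by
  cases L1 with
  | nil => exact absurd rfl n1
  | cons u L1 =>
    cases L2 with
    | nil => exact absurd rfl n2
    | cons v L2 =>
      have h1' : List.IsChain (RR σ S) ((e.val, b) :: (u :: L1 ++ [(e.val, b)])) := h1
      have h2' : List.IsChain (RR σ S) ((e.val, !b) :: (v :: L2 ++ [(e.val, !b)])) := h2
      rw [List.cons_append, List.isChain_cons_cons] at h1' h2'
      have hb : (!(!b)) = b := by simp
      have k1 : List.IsChain (RR σ (insert e S)) ((u :: L1) ++ [v]) :=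
        chain_add he h1'.2 h2'.1 hL1 (hL2 v List.mem_cons_self)
      have k2 : List.IsChain (RR σ (insert e S)) ((v :: L2) ++ [u]) :=
        chain_add he h2'.2 (by rw [hb]; exact h1'.1) hL2 (hL1 u List.mem_cons_self)
      show Cy (RR σ (insert e S)) (u :: (L1 ++ v :: L2))
      show List.IsChain (RR σ (insert e S)) (u :: (L1 ++ v :: L2 ++ [u]))
      have h3 : u :: (L1 ++ v :: L2 ++ [u]) = (u :: L1) ++ v :: (L2 ++ [u]) := by simp
      rw [h3, List.isChain_split]
      exact ⟨k1, k2⟩

theorem cy_cancel {e : Fin M} (he : e ∉ S) {b : Bool} {L : List (ℕ × Bool)}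
    (h : Cy (RR σ S) ((e.val, !b) :: (e.val, b) :: L)) (hL : ∀ y ∈ L, y.1 ≠ e.val) :
    Cy (RR σ (insert e S)) L := by
  cases L with
  | nil => trivial
  | cons u L =>
    have h' : List.IsChain (RR σ S)
      ((e.val, !b) :: (e.val, b) :: (u :: L ++ [(e.val, !b)])) := h
    rw [List.isChain_cons_cons, List.cons_append, List.isChain_cons_cons] at h'
    have hb : (!(!b)) = b := by simp
    have := chain_add he (X := u :: L) (v := u) h'.2.2 (by rw [hb]; exact h'.2.1) hL
      (hL u List.mem_cons_self)
    exact this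

/-- darts with the value `b` -/
def dd (b : Bool) (e : ℕ) : ℕ × Bool := (e, b)

theorem loop (hcyc : CycStmt) (hcom : ComStmt) : ∀ (hs : List ℕ) (S : Finset (Fin M))
    (Mid : List (ℕ × Bool)), hs.Nodup → (∀ h ∈ hs, h < M) →
    (∀ h ∈ hs, ∀ e : Fin M, e.val = h → e ∉ S) → (∀ y ∈ Mid, y.1 ∉ hs) →
    Cy (RR σ S) (hs.map (dd false) ++ (Mid ++ hs.reverse.map (dd true))) → Qs σ S →
    ∃ S' : Finset (Fin M), (∀ e : Fin M, e ∈ S' ↔ e ∈ S ∨ e.val ∈ hs) ∧
      Cy (RR σ S') Mid ∧ Qs σ S' := by
  intro hs
  induction hs with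
  | nil =>
    intro S Mid _ _ _ _ hC hQ
    exact ⟨S, fun e => by simp, by simpa using hC, hQ⟩
  | cons h hs ih =>
    intro S Mid hnd hlt hS hMid hC hQ
    rw [List.nodup_cons] at hnd
    have hhM : h < M := hlt h List.mem_cons_self
    have he : (⟨h, hhM⟩ : Fin M) ∉ S := hS h List.mem_cons_self _ rfl
    have e1 : (h :: hs).map (dd false) ++ (Mid ++ (h :: hs).reverse.map (dd true)) =
        ((h, false) :: (hs.map (dd false) ++ (Mid ++ hs.reverse.map (dd true)))) ++ [(h, true)] := by
      simp [dd]
    rw [e1] at hC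
    have hC2 := hC.rot
    have hC3 : Cy (RR σ S) (((⟨h, hhM⟩ : Fin M).val, !false) :: ((⟨h, hhM⟩ : Fin M).val, false) ::
        (hs.map (dd false) ++ (Mid ++ hs.reverse.map (dd true)))) := hC2
    have hsame : (rho σ S).SameCycle ((⟨h, hhM⟩ : Fin M), false) ((⟨h, hhM⟩ : Fin M), true) := by
      have h1 : List.IsChain (RR σ S) ((h, true) :: (h, false) ::
        ((hs.map (dd false) ++ (Mid ++ hs.reverse.map (dd true))) ++ [(h, true)])) := hC2
      rw [List.isChain_cons_cons] at h1
      obtain ⟨X, Y, hX, hY, h2⟩ := h1.1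
      have h3 : X = ((⟨h, hhM⟩ : Fin M), true) := nm_inj hX
      have h4 : Y = ((⟨h, hhM⟩ : Fin M), false) := nm_inj hY
      subst h3
      subst h4
      exact h2.same.symm
    have hQ' := Qs_cancel hcyc hcom he hsame hQ
    have hL : ∀ y ∈ hs.map (dd false) ++ (Mid ++ hs.reverse.map (dd true)),
        y.1 ≠ (⟨h, hhM⟩ : Fin M).val := by
      intro y hy
      simp only [List.mem_append, List.mem_map, List.mem_reverse] at hy
      rcases hy with ⟨z, hz, rfl⟩ | hy | ⟨z, hz, rfl⟩
      · intro h5
        have h6 : z = h := h5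
        subst h6
        exact hnd.1 hz
      · intro h5
        apply hMid y hy
        have h6 : y.1 = h := h5
        rw [h6]; exact List.mem_cons_self
      · intro h5
        have h6 : z = h := h5
        subst h6
        exact hnd.1 hz
    have hC4 := cy_cancel he hC3 hL
    have g1 : ∀ z ∈ hs, z < M := fun z hz => hlt z (List.mem_cons_of_mem _ hz)
    have g2 : ∀ z ∈ hs, ∀ e : Fin M, e.val = z → e ∉ insert (⟨h, hhM⟩ : Fin M) S := by
      intro z hz e hez hmem
      rw [Finset.mem_insert] at hmem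
      rcases hmem with h5 | h5
      · apply hnd.1
        have h6 : e.val = h := congrArg Fin.val h5
        rw [← h6, hez]; exact hz
      · exact hS z (List.mem_cons_of_mem _ hz) e hez h5
    have g3 : ∀ y ∈ Mid, y.1 ∉ hs := fun y hy h5 => hMid y hy (List.mem_cons_of_mem _ h5)
    obtain ⟨S', h1, h2, h3⟩ := ih (insert (⟨h, hhM⟩ : Fin M) S) Mid hnd.2 g1 g2 g3 hC4 hQ'
    refine ⟨S', ?_, h2, h3⟩
    intro e
    rw [h1 e, Finset.mem_insert, List.mem_cons]
    have : e = ⟨h, hhM⟩ ↔ e.val = h := ⟨fun h => congrArg Fin.val h, fun h => Fin.ext h⟩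
    rw [this]
    tauto

theorem cpairs_left {α : Type} {L : List α} {x : α} (hx : x ∈ L) : ∃ y, (x, y) ∈ cpairs L := by
  obtain ⟨i, hi, rfl⟩ := List.mem_iff_getElem.mp hx
  have hl : (L.rotate 1).length = L.length := List.length_rotate _ _
  have hi' : i < (L.rotate 1).length := by rw [hl]; exact hi
  refine ⟨(L.rotate 1)[i], ?_⟩
  have : i < (cpairs L).length := by
    unfold cpairs
    rw [List.length_zip, hl, min_self]; exact hi
  rw [List.mem_iff_getElem]
  exact ⟨i, this, by simp [cpairs]⟩

theorem cpairs_right {α : Type} {L : List α} {x : α} (hx : x ∈ L) : ∃ y, (y, x) ∈ cpairs L := by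
  have hx' : x ∈ L.rotate 1 := List.mem_rotate.mpr hx
  obtain ⟨i, hi, hix⟩ := List.mem_iff_getElem.mp hx'
  have hl : (L.rotate 1).length = L.length := List.length_rotate _ _
  have hi' : i < L.length := by rw [← hl]; exact hi
  refine ⟨L[i], ?_⟩
  have : i < (cpairs L).length := by
    unfold cpairs
    rw [List.length_zip, hl, min_self]; exact hi'
  rw [List.mem_iff_getElem]
  refine ⟨i, this, ?_⟩
  rw [← hix]
  simp [cpairs]

theorem cpairs_mem {α : Type} {L : List α} {p : α × α} (hp : p ∈ cpairs L) :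
    p.1 ∈ L ∧ p.2 ∈ L := by
  obtain ⟨x, y⟩ := p
  have h := List.of_mem_zip hp
  exact ⟨h.1, List.mem_rotate.mp h.2⟩

/-- `σ` moves along the cyclic list `L` -/
def Moves (σ : Perm (Dart (Fin M))) (L : List (ℕ × Bool)) : Prop :=
  ∀ p ∈ cpairs L, ∀ X Y : Dart (Fin M), nm X = p.1 → nm Y = p.2 → σ X = Y

theorem cy_vertex {L : List (ℕ × Bool)} (hm : Moves σ L) (hlt : ∀ y ∈ L, y.1 < M)
    (hS : ∀ y ∈ L, ∀ e : Fin M, e.val = y.1 → e ∉ S) : Cy (RR σ S) L := by
  apply cy_of_cpairs
  intro p hp
  obtain ⟨h1, h2⟩ := cpairs_mem hp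
  refine ⟨(⟨p.1.1, hlt _ h1⟩, p.1.2), (⟨p.2.1, hlt _ h2⟩, p.2.2), rfl, rfl, ?_⟩
  have h3 := hm p hp (⟨p.1.1, hlt _ h1⟩, p.1.2) (⟨p.2.1, hlt _ h2⟩, p.2.2) rfl rfl
  have h4 : (⟨p.2.1, hlt _ h2⟩ : Fin M) ∉ S := hS _ h2 _ rfl
  have h5 : rho σ S (⟨p.1.1, hlt _ h1⟩, p.1.2) = (⟨p.2.1, hlt _ h2⟩, p.2.2) := by
    rw [rho_apply, h3]
    exact flip_of_notMem h4
  have h6 := Nx.base (σ := σ) (S := S) (⟨p.1.1, hlt _ h1⟩, p.1.2) (by rw [h5]; exact h4)
  rw [h5] at h6
  exact h6

theorem vertex_closed {L : List (ℕ × Bool)} (hm : Moves σ L) (hlt : ∀ y ∈ L, y.1 < M)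
    (hS : ∀ y ∈ L, ∀ e : Fin M, e.val = y.1 → e ∉ S) {X Y : Dart (Fin M)}
    (h : (conn σ S).r X Y) : nm X ∈ L ↔ nm Y ∈ L := by
  have h' : Relation.EqvGen (fun x y => y = σ x ∨ y = flip S x) X Y := h
  clear h
  induction h' with
  | rel x y hxy =>
    rcases hxy with rfl | rfl
    · constructor
      · intro hx
        obtain ⟨z, hz⟩ := cpairs_left hx
        have hz2 := (cpairs_mem hz).2
        have h1 := hm _ hz x (⟨z.1, hlt z hz2⟩, z.2) rfl rfl
        rw [h1]
        exact hz2
      · intro hx
        obtain ⟨z, hz⟩ := cpairs_right hx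
        have hz2 := (cpairs_mem hz).1
        have h1 := hm _ hz (⟨z.1, hlt z hz2⟩, z.2) (σ x) rfl rfl
        have h2 := σ.injective h1
        rw [← h2]
        exact hz2
    · by_cases hx : x.1 ∈ S
      · constructor
        · intro h1; exact absurd hx (hS _ h1 _ rfl)
        · intro h1
          exact absurd hx (hS _ h1 _ (by rw [← flip_fst S x]; rfl))
      · rw [flip_of_notMem hx]
  | refl x => exact Iff.rfl
  | symm x y _ ih => exact ih.symm
  | trans x y z _ _ ih1 ih2 => exact ih1.trans ih2

theorem vstep (hcyc : CycStmt) (hcom : ComStmt) (S : Finset (Fin M)) (m b h1 : ℕ)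
    (T D hs : List ℕ) (hm : m + b ≤ M) (hnd : (T ++ ((h1 :: hs) ++ D)).Nodup)
    (hlt : ∀ e ∈ T ++ ((h1 :: hs) ++ D), e < m)
    (hS : ∀ e : Fin M, e ∈ S ↔ e.val < m ∧ e.val ∉ T ++ ((h1 :: hs) ++ D))
    (hσ : Moves σ (cl (h1 :: hs, List.range' m b)))
    (n1 : T ++ (hs ++ D) ≠ []) (n2 : 1 ≤ b ∨ hs ≠ [])
    (hC : Cy (RR σ S) ((T ++ ((h1 :: hs) ++ D)).map (dd false))) (hQ : Qs σ S) :
    ∃ S' : Finset (Fin M), (∀ e : Fin M, e ∈ S' ↔ e.val < m + b ∧
        e.val ∉ T ++ (List.range' m b ++ D)) ∧
      Cy (RR σ S') ((T ++ (List.range' m b ++ D)).map (dd false)) ∧ Qs σ S' := by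
  set outs := List.range' m b with houts
  have hV : cl (h1 :: hs, outs) =
      (h1, true) :: (outs.map (dd false) ++ hs.reverse.map (dd true)) := rfl
  rw [hV] at hσ
  have hmem : ∀ z, z ∈ h1 :: hs → z ∈ T ++ ((h1 :: hs) ++ D) := fun z hz =>
    List.mem_append_right _ (List.mem_append_left _ hz)
  have houtm : ∀ z ∈ outs, m ≤ z ∧ z < m + b := by
    intro z hz
    rw [houts, List.mem_range'] at hz
    obtain ⟨i, hi, rfl⟩ := hz
    omega
  have hlab : ∀ y ∈ (h1, true) :: (outs.map (dd false) ++ hs.reverse.map (dd true)),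
      y.1 ∈ h1 :: hs ∨ y.1 ∈ outs := by
    intro y hy
    simp only [List.mem_cons, List.mem_append, List.mem_map, List.mem_reverse] at hy
    rcases hy with rfl | ⟨z, hz, rfl⟩ | ⟨z, hz, rfl⟩
    · left; exact List.mem_cons_self
    · right; exact hz
    · left; exact List.mem_cons_of_mem _ hz
  have hltV : ∀ y ∈ (h1, true) :: (outs.map (dd false) ++ hs.reverse.map (dd true)), y.1 < M := by
    intro y hy
    rcases hlab y hy with h2 | h2
    · have := hlt _ (hmem _ h2); omega
    · have := houtm _ h2; omega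
  have hSV : ∀ y ∈ (h1, true) :: (outs.map (dd false) ++ hs.reverse.map (dd true)),
      ∀ e : Fin M, e.val = y.1 → e ∉ S := by
    intro y hy e he heS
    rw [hS e] at heS
    rcases hlab y hy with h2 | h2
    · apply heS.2; rw [he]; exact hmem _ h2
    · have := houtm _ h2
      rw [← he] at this; omega
  have cyV : Cy (RR σ S) ((h1, true) :: (outs.map (dd false) ++ hs.reverse.map (dd true))) :=
    cy_vertex hσ hltV hSV
  have hh1 : h1 < m := hlt _ (hmem _ List.mem_cons_self)
  have hh1M : h1 < M := by omega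
  have he : (⟨h1, hh1M⟩ : Fin M) ∉ S := hSV (h1, true) List.mem_cons_self _ rfl
  rw [List.map_append] at hC
  have hC1 := hC.rot
  have e1 : ((h1 :: hs) ++ D).map (dd false) ++ T.map (dd false) =
      (h1, false) :: (hs ++ (D ++ T)).map (dd false) := by
    simp [dd]
  rw [e1] at hC1
  have hnd2 := hnd
  rw [List.nodup_append, List.nodup_append, List.nodup_cons] at hnd
  obtain ⟨ndT, ⟨⟨ndh1, ndhs⟩, ndD, ndhD⟩, ndTr⟩ := hnd
  have a1 : h1 ∉ T := fun h => ndTr h1 h h1 (List.mem_append_left _ List.mem_cons_self) rfl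
  have a2 : h1 ∉ D := fun h => ndhD h1 List.mem_cons_self h1 h rfl
  have a3 : ∀ z ∈ hs, z ∉ D := fun z hz h => ndhD z (List.mem_cons_of_mem _ hz) z h rfl
  have a4 : ∀ z ∈ hs, z ∉ T := fun z hz h =>
    ndTr z h z (List.mem_append_left _ (List.mem_cons_of_mem _ hz)) rfl
  have hL1 : ∀ y ∈ (hs ++ (D ++ T)).map (dd false), y.1 ≠ (⟨h1, hh1M⟩ : Fin M).val := by
    intro y hy
    simp only [List.mem_map, List.mem_append] at hy
    obtain ⟨z, hz, rfl⟩ := hy
    intro h5
    have h6 : z = h1 := h5
    subst h6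
    rcases hz with hz | hz | hz
    · exact ndh1 hz
    · exact a2 hz
    · exact a1 hz
  have hL2 : ∀ y ∈ outs.map (dd false) ++ hs.reverse.map (dd true),
      y.1 ≠ (⟨h1, hh1M⟩ : Fin M).val := by
    intro y hy
    simp only [List.mem_map, List.mem_append, List.mem_reverse] at hy
    intro h5
    rcases hy with ⟨z, hz, rfl⟩ | ⟨z, hz, rfl⟩
    · have h6 : z = h1 := h5
      have := houtm z hz
      omega
    · have h6 : z = h1 := h5
      subst h6
      exact ndh1 hz
  have hM1 : Cy (RR σ (insert (⟨h1, hh1M⟩ : Fin M) S))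
      ((hs ++ (D ++ T)).map (dd false) ++ (outs.map (dd false) ++ hs.reverse.map (dd true))) := by
    refine cy_merge (b := false) he hC1 cyV ?_ ?_ hL1 hL2
    · intro h5
      apply n1
      simp only [List.map_eq_nil_iff, List.append_eq_nil_iff] at h5
      simp [h5.1, h5.2.1, h5.2.2]
    · intro h5
      simp only [List.append_eq_nil_iff, List.map_eq_nil_iff, List.reverse_eq_nil_iff] at h5
      rcases n2 with h6 | h6
      · have h7 : outs.length = 0 := by rw [h5.1]; rfl
        rw [houts, List.length_range'] at h7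
        omega
      · exact h6 h5.2
  have hnc : ¬ (conn σ S).r ((⟨h1, hh1M⟩ : Fin M), false) ((⟨h1, hh1M⟩ : Fin M), true) := by
    intro h5
    have h6 := (vertex_closed hσ hltV hSV h5).mpr List.mem_cons_self
    have h7 : (h1, false) ∈ (h1, true) :: (outs.map (dd false) ++ hs.reverse.map (dd true)) := h6
    simp only [List.mem_cons, List.mem_append, List.mem_map, dd, Prod.mk.injEq, List.mem_reverse] at h7
    rcases h7 with h8 | ⟨z, hz, h8, _⟩ | ⟨z, _, _, h8⟩
    · exact absurd h8.2 (by decide)
    · have := houtm z hz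
      omega
    · exact absurd h8 (by decide)
  have hQ1 := Qs_merge hcyc hcom he hnc hQ
  have e2 : (hs ++ (D ++ T)).map (dd false) ++ (outs.map (dd false) ++ hs.reverse.map (dd true)) =
      hs.map (dd false) ++ (((D ++ T) ++ outs).map (dd false) ++ hs.reverse.map (dd true)) := by
    simp
  rw [e2] at hM1
  obtain ⟨S', k1, k2, k3⟩ := loop hcyc hcom hs (insert (⟨h1, hh1M⟩ : Fin M) S)
    (((D ++ T) ++ outs).map (dd false)) ndhs
    (fun z hz => by
      have := hlt z (hmem z (List.mem_cons_of_mem _ hz))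
      omega)
    (by
      intro z hz e hez hmm
      rw [Finset.mem_insert] at hmm
      rcases hmm with h5 | h5
      · have h6 : e.val = h1 := congrArg Fin.val h5
        apply ndh1
        rw [← h6, hez]; exact hz
      · rw [hS e] at h5
        apply h5.2
        rw [hez]
        exact hmem z (List.mem_cons_of_mem _ hz))
    (by
      intro y hy
      simp only [List.mem_map, List.mem_append] at hy
      obtain ⟨z, hz, rfl⟩ := hy
      intro h5
      have h6 : z ∈ hs := h5
      rcases hz with (hz | hz) | hz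
      · exact a3 z h6 hz
      · exact a4 z h6 hz
      · have h7 := houtm z hz
        have h8 := hlt z (hmem z (List.mem_cons_of_mem _ h6))
        omega) hM1 hQ1
  refine ⟨S', ?_, ?_, k3⟩
  · intro e
    rw [k1 e, Finset.mem_insert, hS e]
    have h5 : e = ⟨h1, hh1M⟩ ↔ e.val = h1 := ⟨fun h => congrArg Fin.val h, fun h => Fin.ext h⟩
    rw [h5]
    have h6 : e.val ∈ outs ↔ m ≤ e.val ∧ e.val < m + b := by
      constructor
      · exact houtm _
      · intro h7
        rw [houts, List.mem_range']
        exact ⟨e.val - m, by omega, by omega⟩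
    simp only [List.mem_append, List.mem_cons, not_or, h6]
    constructor
    · rintro ((h7 | h7) | h7)
      · rw [h7]
        exact ⟨by omega, a1, by omega, a2⟩
      · exact ⟨by omega, h7.2.1, by omega, h7.2.2.2⟩
      · have h8 := hlt _ (hmem _ (List.mem_cons_of_mem _ h7))
        exact ⟨by omega, a4 _ h7, by omega, a3 _ h7⟩
    · rintro ⟨h7, h8, h9, h10⟩
      by_cases h11 : e.val = h1
      · exact Or.inl (Or.inl h11)
      · by_cases h12 : e.val ∈ hs
        · exact Or.inr h12
        · exact Or.inl (Or.inr ⟨by omega, h8, ⟨h11, h12⟩, h10⟩)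
  · have e3 : ((D ++ T) ++ outs).map (dd false) =
        D.map (dd false) ++ (T ++ outs).map (dd false) := by simp
    rw [e3] at k2
    have k4 := k2.rot
    have e4 : (T ++ outs).map (dd false) ++ D.map (dd false) =
        (T ++ (outs ++ D)).map (dd false) := by simp
    rw [e4] at k4
    exact k4

theorem run_cons {I : Type} (new : ℕ → I) (s : St I) (o : Op) (w : List Op) :
    run new s (o :: w) = run new (step new s o) w := rfl

theorem run_mono (w : List Op) : ∀ s : St ℕ, s.m ≤ (run id s w).m ∧
    ∀ v ∈ s.vs, v ∈ (run id s w).vs := by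
  induction w with
  | nil => intro s; exact ⟨le_refl _, fun v hv => hv⟩
  | cons o w ih =>
    intro s
    rw [run_cons]
    obtain ⟨h1, h2⟩ := ih (step id s o)
    cases o with
    | rot k => exact ⟨h1, h2⟩
    | vtx i a b =>
      refine ⟨le_trans (Nat.le_add_right _ _) h1, fun v hv => h2 v ?_⟩
      exact List.mem_append_left _ hv

theorem split_fr (fr : List ℕ) (i a : ℕ) (ha : 1 ≤ a) (hi : i + a ≤ fr.length) :
    ∃ h1 hs, (fr.drop i).take a = h1 :: hs ∧
      fr = fr.take i ++ ((h1 :: hs) ++ fr.drop (i + a)) ∧ hs.length + 1 = a := by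
  have h1 : ((fr.drop i).take a).length = a := by
    rw [List.length_take, List.length_drop]; omega
  cases h2 : (fr.drop i).take a with
  | nil => rw [h2] at h1; simp at h1; omega
  | cons x xs =>
    refine ⟨x, xs, rfl, ?_, ?_⟩
    · rw [← h2, ← List.drop_drop, List.take_append_drop, List.take_append_drop]
    · rw [h2] at h1; simpa using h1

theorem main_ind (hcyc : CycStmt) (hcom : ComStmt) (a : ℕ) : ∀ (w : List Op) (s : St ℕ)
    (S : Finset (Fin M)), legal w s.fr.length a → 2 ≤ s.fr.length → s.fr.Nodup →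
    (∀ e ∈ s.fr, e < s.m) → (∀ e : Fin M, e ∈ S ↔ e.val < s.m ∧ e.val ∉ s.fr) →
    Cy (RR σ S) (s.fr.map (dd false)) → Qs σ S →
    (run id s (w ++ [.vtx 0 a 0])).m = M →
    (∀ v ∈ (run id s (w ++ [.vtx 0 a 0])).vs, Moves σ (cl v)) → Qs σ Finset.univ := by
  intro w
  induction w with
  | nil =>
    intro s S hleg h2 hnd hlt hS hC hQ hM hv
    have ha : s.fr.length = a := hleg
    obtain ⟨h1, hs, e1, e2, e3⟩ := split_fr s.fr 0 a (by omega) (by omega)
    have hst : run id s ([] ++ [Op.vtx 0 a 0]) =
      ⟨s.fr.take 0 ++ (List.range' s.m 0).map id ++ s.fr.drop (0 + a), s.m + 0,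
        s.vs ++ [((s.fr.drop 0).take a, (List.range' s.m 0).map id)]⟩ := rfl
    rw [hst] at hM hv
    have hm : s.m = M := hM
    have hd : s.fr.drop (0 + a) = [] := by
      apply List.drop_of_length_le; omega
    rw [hd] at e2
    have e2' : s.fr = [] ++ ((h1 :: hs) ++ []) := e2
    have hmv := hv ((s.fr.drop 0).take a, (List.range' s.m 0).map id)
      (List.mem_append_right _ (List.mem_singleton.mpr rfl))
    rw [e1, List.map_id] at hmv
    have hne : hs ≠ [] := by
      intro h
      rw [h] at e3
      simp at e3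
      omega
    rw [e2'] at hnd hlt hS hC
    obtain ⟨S', k1, _, k3⟩ := vstep hcyc hcom S s.m 0 h1 [] [] hs (by omega) hnd hlt hS hmv
      (by simpa using hne) (Or.inr hne) hC hQ
    have : S' = Finset.univ := by
      rw [Finset.eq_univ_iff_forall]
      intro e
      rw [k1 e]
      have := e.2
      exact ⟨by omega, by simp⟩
    rw [← this]
    exact k3
  | cons o w ih =>
    intro s S hleg h2 hnd hlt hS hC hQ hM hv
    rw [List.cons_append, run_cons] at hM hv
    cases o with
    | rot k =>
      refine ih (step id s (.rot k)) S ?_ ?_ ?_ ?_ ?_ ?_ hQ hM hv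
      · show legal w (s.fr.rotate k).length a
        rw [List.length_rotate]; exact hleg
      · show 2 ≤ (s.fr.rotate k).length
        rw [List.length_rotate]; exact h2
      · exact List.nodup_rotate.mpr hnd
      · intro e he
        exact hlt e (List.mem_rotate.mp he)
      · intro e
        rw [hS e]
        show _ ↔ e.val < s.m ∧ e.val ∉ s.fr.rotate k
        rw [List.mem_rotate]
      · show Cy (RR σ S) ((s.fr.rotate k).map (dd false))
        rw [List.map_rotate]
        exact hC.rotate k
    | vtx i a' b =>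
      obtain ⟨ha', hb, hia, han, hleg'⟩ := hleg
      obtain ⟨h1, hs, e1, e2, e3⟩ := split_fr s.fr i a' ha' hia
      have hmono := run_mono (w ++ [.vtx 0 a 0]) (step id s (.vtx i a' b))
      rw [hM] at hmono
      have hst : step id s (Op.vtx i a' b) =
        ⟨s.fr.take i ++ (List.range' s.m b).map id ++ s.fr.drop (i + a'), s.m + b,
          s.vs ++ [((s.fr.drop i).take a', (List.range' s.m b).map id)]⟩ := rfl
      rw [hst, e1, List.map_id, List.append_assoc] at hmono hM hv
      have hmb : s.m + b ≤ M := hmono.1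
      have hmv := hv _ (hmono.2 _ (List.mem_append_right _ (List.mem_singleton.mpr rfl)))
      have hlen : s.fr.length = i + a' + (s.fr.drop (i + a')).length := by
        rw [List.length_drop]; omega
      have hlt' : (s.fr.take i).length = i := by
        rw [List.length_take]; omega
      have n1 : s.fr.take i ++ (hs ++ s.fr.drop (i + a')) ≠ [] := by
        intro h
        simp only [List.append_eq_nil_iff] at h
        have h3 : (s.fr.take i).length = 0 := by rw [h.1]; rfl
        have h4 : hs.length = 0 := by rw [h.2.1]; rfl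
        have h5 : (s.fr.drop (i + a')).length = 0 := by rw [h.2.2]; rfl
        omega
      obtain ⟨S', k1, k2, k3⟩ := vstep hcyc hcom S s.m b h1 (s.fr.take i) (s.fr.drop (i + a')) hs
        hmb (by rw [← e2]; exact hnd) (by rw [← e2]; exact hlt) (by rw [← e2]; exact hS) hmv n1
        (Or.inl hb) (by rw [← e2]; exact hC) hQ
      have hnd' := hnd
      rw [e2, List.nodup_append, List.nodup_append] at hnd'
      obtain ⟨ndT, ⟨_, ndD, _⟩, ndTr⟩ := hnd'
      have hT : ∀ z ∈ s.fr.take i, z < s.m := fun z hz => hlt z (List.mem_of_mem_take hz)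
      have hD : ∀ z ∈ s.fr.drop (i + a'), z < s.m := fun z hz => hlt z (List.mem_of_mem_drop hz)
      have hO : ∀ z ∈ List.range' s.m b, s.m ≤ z ∧ z < s.m + b := by
        intro z hz
        rw [List.mem_range'] at hz
        obtain ⟨j, hj, rfl⟩ := hz
        omega
      refine ih _ S' ?_ ?_ ?_ ?_ k1 k2 k3 hM hv
      · show legal w (s.fr.take i ++ (List.range' s.m b ++ s.fr.drop (i + a'))).length a
        have : (s.fr.take i ++ (List.range' s.m b ++ s.fr.drop (i + a'))).length =
            s.fr.length - a' + b := by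
          rw [List.length_append, List.length_append, List.length_range', hlt']
          omega
        rw [this]
        exact hleg'
      · show 2 ≤ (s.fr.take i ++ (List.range' s.m b ++ s.fr.drop (i + a'))).length
        rw [List.length_append, List.length_append, List.length_range', hlt']
        omega
      · show (s.fr.take i ++ (List.range' s.m b ++ s.fr.drop (i + a'))).Nodup
        rw [List.nodup_append, List.nodup_append]
        refine ⟨ndT, ⟨List.nodup_range', ndD, ?_⟩, ?_⟩
        · intro x hx y hy hxy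
          have := hO x hx
          have := hD y hy
          omega
        · intro x hx y hy hxy
          rw [List.mem_append] at hy
          rcases hy with hy | hy
          · have := hO y hy
            have := hT x hx
            omega
          · exact ndTr x hx y (List.mem_append_right _ hy) hxy
      · intro z hz
        have hz' : z ∈ s.fr.take i ++ (List.range' s.m b ++ s.fr.drop (i + a')) := hz
        rw [List.mem_append, List.mem_append] at hz'
        show z < s.m + b
        rcases hz' with hz' | hz' | hz'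
        · have := hT z hz'; omega
        · exact (hO z hz').2
        · have := hD z hz'; omega

end words

theorem pln (hcyc : CycStmt) (hcom : ComStmt) (_ : StaStmt) : PlnStmt := by
  intro w a σ hleg ha hR
  have hfin : fin w a = run id ⟨[0, 1], 2, [([], [0, 1])]⟩ ((Op.vtx 0 1 2 :: w) ++ [.vtx 0 a 0]) :=
    rfl
  have hM : (run id ⟨[0, 1], 2, [([], [0, 1])]⟩ ((Op.vtx 0 1 2 :: w) ++ [.vtx 0 a 0])).m =
      (fin w a).m := by rw [hfin]
  have hmono := run_mono ((Op.vtx 0 1 2 :: w) ++ [.vtx 0 a 0]) ⟨[0, 1], 2, [([], [0, 1])]⟩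
  have hv : ∀ v ∈ (fin w a).vs, Moves σ (cl v) := by
    intro v hv p hp X Y hX hY
    rw [hR X Y]
    exact ⟨v, hv, by rw [hX, hY]; exact hp⟩
  have h2M : 2 ≤ (fin w a).m := by rw [hfin]; exact hmono.1
  have hmv := hv ([], [0, 1]) (by rw [hfin]; exact hmono.2 _ (List.mem_singleton.mpr rfl))
  have hC : Cy (RR σ ∅) (([0, 1] : List ℕ).map (dd false)) := by
    have e : ([0, 1] : List ℕ).map (dd false) = cl (([] : List ℕ), [0, 1]) := rfl
    rw [e]
    refine cy_vertex hmv ?_ (fun y _ e _ => Finset.notMem_empty e)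
    intro y hy
    have hy' : y ∈ [(0, false), (1, false)] := hy
    simp only [List.mem_cons, List.not_mem_nil, or_false] at hy'
    rcases hy' with rfl | rfl
    · show 0 < _; omega
    · show 1 < _; omega
  have hQ := main_ind hcyc hcom a (Op.vtx 0 1 2 :: w) ⟨[0, 1], 2, [([], [0, 1])]⟩ ∅
    ⟨le_refl _, by norm_num, by norm_num, by norm_num, hleg⟩ (le_refl _) (by decide) (by decide)
    (by
      intro e
      constructor
      · intro h; exact absurd h (Finset.notMem_empty e)
      · rintro ⟨h1, h2⟩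
        exfalso
        apply h2
        have h3 : e.val < 2 := h1
        show e.val ∈ [0, 1]
        simp only [List.mem_cons, List.not_mem_nil, or_false]
        omega) hC (Qs_empty σ) hM (by rw [← hfin]; exact hv)
  unfold Qs at hQ
  rw [Finset.card_univ, Fintype.card_fin] at hQ
  omega

end Pool.Agent.HAM.H27
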